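import Mathlib
import Pool.Graph.R_seed8.Helper948.Nfa
import Pool.Graph.R_seed8.Helper178.UnaryFinal

set_option autoImplicit false

namespace Pool.Agent.H36.TC

open Pool.Agent.Helper948.Nfa Filter Topology Asymptotics

/-- The morphism encoding `K` relations at once: the letter `0` shifts, the letter `j + 1` carries
the relation `R j`. -/
noncomputable def morK (K n J : ℕ) [NeZero n] (R : Fin K → Finset (ZMod n × ZMod n)) :
    Fin (K + 1) → List (Lt J) :=
  Fin.cases [lx, ly] (fun j => relWord J (R j).toList)

theorem encodeK {n J : ℕ} [NeZero n] [NeZero J] (K : ℕ) (r : ℕ)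
    (R : Fin K → Finset (ZMod n × ZMod n)) (j : Fin K) (u v : ZMod n) :
    (List.replicate u.val (0 : Fin (K + 1)) ++ ([j.succ] ++
      List.replicate (-v).val (0 : Fin (K + 1)))) ∈
      inverseImage (morK K n J R) (padLang n J r) ↔ (u, v) ∈ R j := by
  set W := (List.replicate u.val ([lx, ly] : List (Lt J))).flatten ++ (relWord J (R j).toList ++
    (List.replicate (-v).val ([lx, ly] : List (Lt J))).flatten) with hW
  have hflat : (List.replicate u.val (0 : Fin (K + 1)) ++
      (([j.succ] : List (Fin (K + 1))) ++
      List.replicate (-v).val (0 : Fin (K + 1)))).flatMap (morK K n J R) = W := by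
    rw [List.flatMap_append, List.flatMap_append, flatMap_replicate', flatMap_replicate']
    simp only [morK, List.flatMap_cons, List.flatMap_nil, List.append_nil, Fin.cases_zero,
      Fin.cases_succ]
    rfl
  show _ ∈ padLang n J r ↔ _
  rw [hflat]
  have hinl : ∀ l ∈ W, isInl l := by
    intro l hl
    rw [hW, List.mem_append, List.mem_append] at hl
    rcases hl with hl | hl | hl
    · exact isInl_xy _ l hl
    · exact isInl_rel _ l hl
    · exact isInl_xy _ l hl
  have hne : W ≠ [] := by
    intro h
    have : (lz : Lt J) ∈ W := by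
      rw [hW]
      unfold relWord
      simp
    rw [h] at this
    simp at this
  have hpath : ∀ g, (ring n J).Path sS W g ↔ (ring n J).Path (sP 0) W g := by
    intro g
    cases hWc : W with
    | nil => exact absurd hWc hne
    | cons l W' =>
      apply path_S_iff
      apply hinl
      rw [hWc]
      exact List.mem_cons_self
  have hval : ∀ a : ZMod n, ((a.val : ℕ) : ZMod n) = a := by
    intro a; simp
  have hmain : ∀ g, (ring n J).Path (sP 0) W g ↔ ∃ v', (u, v') ∈ R j ∧ g = sQ (v' + -v) := by
    intro g
    rw [hW, path_P_xy, path_P_rel, hval, zero_add]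
    constructor
    · rintro ⟨v', h1, h2⟩
      have h3 := (path_Q_xy (n := n) (J := J) (-v).val v' [] g).1 (by simpa using h2)
      rw [path_nil_iff, hval] at h3
      exact ⟨v', Finset.mem_toList.1 h1, h3.symm⟩
    · rintro ⟨v', h1, h2⟩
      refine ⟨v', Finset.mem_toList.2 h1, ?_⟩
      have h3 := (path_Q_xy (n := n) (J := J) (-v).val v' [] g).2 (by
        rw [path_nil_iff, hval]; exact h2.symm)
      simpa using h3
  constructor
  · rintro (⟨g, hg, h⟩ | ⟨i, _, _, h⟩)
    · have h1 := (hmain g).1 ((hpath g).1 h)
      obtain ⟨v', hv', rfl⟩ := h1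
      rcases hg with hg | hg
      · rw [sQ_inj] at hg
        have : v' = v := by rwa [← sub_eq_add_neg, sub_eq_zero] at hg
        rw [← this]; exact hv'
      · have hg' : (sQ (v' + -v) : St n) = sF := hg
        simp [sQ, sF] at hg'
    · exfalso
      have := hinl (le i) (by rw [h]; simp)
      exact not_isInl_le i this
  · intro h
    left
    refine ⟨sQ 0, Or.inl rfl, (hpath _).2 ((hmain _).2 ⟨v, h, ?_⟩)⟩
    rw [add_neg_cancel]

theorem morK_ne (K n J : ℕ) [NeZero n] (R : Fin K → Finset (ZMod n × ZMod n)) (i : Fin (K + 1)) :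
    morK K n J R i ≠ [] := by
  refine Fin.cases ?_ (fun j => ?_) i
  · simp [morK]
  · simp [morK, relWord]

/-- One language of transition complexity `m` whose preimages under morphisms from `K + 1` letters
are hard, for all `K` at once: counting with `K` independent relations. -/
theorem one_lang (n m : ℕ) (hn : 1 ≤ n) (hm : 7 * n + 6 ≤ m) :
    ∃ (S : Type) (_ : Fintype S) (L : Language S), L.IsRegular ∧ tc L = m ∧
      ∀ K : ℕ, ∃ h : Fin (K + 1) → List S, (∀ i, h i ≠ []) ∧
        (2 ^ (n * n)) ^ K ≤ (tc (inverseImage h L) + 1) * (2 ^ (tc (inverseImage h L) + 1) *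
          ((tc (inverseImage h L) + 1) * ((K + 1) * (tc (inverseImage h L) + 1)) + 1) ^
            (tc (inverseImage h L))) := by
  classical
  have : NeZero n := ⟨by omega⟩
  have : NeZero (m + 2) := ⟨by omega⟩
  set J := m + 2 with hJ
  have h1 : tc (ring n J).lang ≤ m := (tc_le _).trans (ring_card.trans hm)
  set r := m - tc (ring n J).lang with hr
  obtain ⟨hrec, htc⟩ := padLang_props (n := n) (J := J) r (by omega)
  have htc' : tc (padLang n J r) = m := by omega
  refine ⟨Lt J, inferInstance, padLang n J r, isRegular_of_rec hrec, htc', fun K => ?_⟩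
  obtain ⟨R₀, -, hR₀⟩ := Finset.exists_max_image
    (Finset.univ : Finset (Fin K → Finset (ZMod n × ZMod n)))
    (fun R => tc (inverseImage (morK K n J R) (padLang n J r))) ⟨fun _ => ∅, Finset.mem_univ _⟩
  refine ⟨morK K n J R₀, morK_ne K n J R₀, ?_⟩
  have hcount := count_bound (Γ := Fin (K + 1)) (ι := Fin K → Finset (ZMod n × ZMod n))
    (tc (inverseImage (morK K n J R₀) (padLang n J r)))
    (fun R => inverseImage (morK K n J R) (padLang n J r)) (by
      intro R R' hRR
      ext j ⟨u, v⟩
      have e1 := encodeK (n := n) (J := J) K r R j u v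
      have e2 := encodeK (n := n) (J := J) K r R' j u v
      have hRR' : inverseImage (morK K n J R) (padLang n J r) =
        inverseImage (morK K n J R') (padLang n J r) := hRR
      rw [← e1, ← e2, hRR'])
    (fun R => rec_inverseImage hrec _)
    (fun R => hR₀ R (Finset.mem_univ R))
  rw [Fintype.card_pi_const, Fintype.card_finset, Fintype.card_prod, ZMod.card,
    Fintype.card_fin] at hcount
  exact hcount

/-- The standard construction: `g k m ≤ k (m + 1) ^ 2`. -/
theorem g_standard (k m : ℕ) : g k m ≤ k * (m + 1) ^ 2 := by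
  classical
  apply csSup_le (gValues_nonempty k m)
  rintro t ⟨Γ, σ, _, _, h, L, hk, hL, hm, rfl⟩
  obtain ⟨A, hA, -⟩ := normal_form (rec_of_isRegular hL) m hm.le
  let B : TNFA Γ (Fin (m + 1)) :=
    { start := A.start
      accept := A.accept
      trans := Finset.univ.filter (fun r => A.Path r.1 (h r.2.1) r.2.2) }
  have hB : ∀ (w : List Γ) (p q : Fin (m + 1)), B.Path p w q ↔ A.Path p (w.flatMap h) q := by
    intro w
    induction w with
    | nil => intro p q; simp only [List.flatMap_nil, path_nil_iff]
    | cons a w ih =>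
      intro p q
      rw [path_cons_iff, List.flatMap_cons, path_append_iff]
      refine exists_congr fun r => ?_
      rw [ih]
      simp only [B, Finset.mem_filter, Finset.mem_univ, true_and]
  have hlang : B.lang = inverseImage h L := by
    ext w
    rw [mem_lang]
    show _ ↔ w.flatMap h ∈ L
    rw [← hA, mem_lang]
    exact exists_congr fun f => and_congr Iff.rfl (hB w A.start f)
  rw [← hlang]
  refine (tc_le B).trans ((Finset.card_filter_le _ _).trans (le_of_eq ?_))
  rw [Finset.card_univ, Fintype.card_prod, Fintype.card_prod, Fintype.card_fin, hk]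
  ring

end Pool.Agent.H36.TC
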