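import Mathlib
import Pool.Agent.H36.TC.Core

set_option autoImplicit false

namespace Pool.Agent.H36.TC

open Pool.Agent.Helper948.Nfa Filter Topology Asymptotics

theorem low' (K m t : ℕ) (hK : 1 ≤ K) (hm : 24 ≤ m)
    (hcount : (2 ^ (((m - 6) / 7) * ((m - 6) / 7))) ^ K ≤
      (t + 1) * (2 ^ (t + 1) * ((t + 1) * ((K + 1) * (t + 1)) + 1) ^ t)) :
    ((K : ℝ) + 1) * (m : ℝ) ^ 2 ≤
      4600 * ((t : ℝ) + 1) * Real.log (((K : ℝ) + 1) * m) := by
  have hlog2 : 0.69 < Real.log 2 := by linarith [Real.log_two_gt_d9]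
  have hmr : (24 : ℝ) ≤ m := by exact_mod_cast hm
  have hKr : (1 : ℝ) ≤ K := by exact_mod_cast hK
  set k : ℝ := (K : ℝ) + 1 with hk
  set X : ℝ := Real.log (k * m) with hX
  have hkm : (48 : ℝ) ≤ k * m := by nlinarith
  have hX1 : 1 ≤ X := by
    have h1 : Real.exp 1 ≤ k * m := by linarith [Real.exp_one_lt_d9]
    exact (Real.le_log_iff_exp_le (by linarith)).2 h1
  set T : ℝ := (t : ℝ) + 1 with hT
  have hT1 : 1 ≤ T := by
    have : (0 : ℝ) ≤ (t : ℝ) := Nat.cast_nonneg _
    linarith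
  by_cases hbig : k * (m : ℝ) ^ 2 ≤ T
  · have h1 : T ≤ 4600 * T * X := by nlinarith
    linarith
  · push Not at hbig
    set n := (m - 6) / 7 with hn
    have hn1 : 1 ≤ n := by omega
    have hcount' : ((2 : ℝ) ^ (n * n)) ^ K ≤
        T * (2 ^ (t + 1) * ((T * (k * T)) + 1) ^ (t)) := by
      have h0 : ((((2 ^ (n * n)) ^ K : ℕ)) : ℝ) ≤
          (((t + 1) * (2 ^ (t + 1) *
            ((t + 1) * ((K + 1) * (t + 1)) + 1) ^ (t)) : ℕ) : ℝ) := by
        exact_mod_cast hcount
      push_cast at h0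
      exact h0
    have hk2 : (2 : ℝ) ≤ k := by linarith
    have hXX : (1 : ℝ) ≤ T * (k * T) + 1 := by
      have : 0 ≤ T * (k * T) := by positivity
      linarith
    have hlog := Real.log_le_log (by positivity) hcount'
    rw [Real.log_pow, Real.log_pow, Real.log_mul (by positivity) (by positivity),
      Real.log_mul (by positivity) (by positivity), Real.log_pow, Real.log_pow] at hlog
    have hgT : (t : ℝ) = T - 1 := by rw [hT]; ring
    have hgT1 : ((t + 1 : ℕ) : ℝ) = T := by rw [hT]; push_cast; ring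
    rw [hgT, hgT1] at hlog
    have hm2 : Real.log ((m : ℝ) ^ 2 * k) ≤ 2 * X := by
      have h1 : Real.log ((m : ℝ) ^ 2 * k) ≤ Real.log ((k * m) ^ 2) := by
        apply Real.log_le_log (by positivity)
        have : (m : ℝ) ^ 2 * k * 1 ≤ (m : ℝ) ^ 2 * k * k :=
          mul_le_mul_of_nonneg_left (by linarith) (by positivity)
        nlinarith
      rw [Real.log_pow] at h1
      push_cast at h1
      exact h1
    have hlT : Real.log T ≤ 2 * X := by
      refine le_trans (Real.log_le_log (by linarith) ?_) hm2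
      linarith
    have hlT0 : 0 ≤ Real.log T := Real.log_nonneg hT1
    have hl2k : Real.log (2 * k) ≤ X := by
      apply Real.log_le_log (by positivity)
      nlinarith
    have hXle : T * (k * T) + 1 ≤ 2 * k * T ^ 2 := by
      have h1 : 1 ≤ k * T ^ 2 := by nlinarith
      nlinarith
    have hlX : Real.log (T * (k * T) + 1) ≤ 5 * X := by
      have h1 : Real.log (T * (k * T) + 1) ≤ Real.log (2 * k * T ^ 2) :=
        Real.log_le_log (by linarith) hXle
      rw [Real.log_mul (by positivity) (by positivity), Real.log_pow] at h1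
      push_cast at h1
      linarith
    have hl2 : Real.log 2 ≤ X := by
      apply Real.log_le_log (by norm_num)
      linarith
    have e1 : Real.log T ≤ 2 * X * T := by nlinarith
    have e2 : T * Real.log 2 ≤ X * T := by nlinarith
    have e3 : (T - 1) * Real.log (T * (k * T) + 1) ≤ 5 * X * T := by
      have h1 : (T - 1) * Real.log (T * (k * T) + 1) ≤ (T - 1) * (5 * X) :=
        mul_le_mul_of_nonneg_left hlX (by linarith)
      nlinarith
    have e4 : (K : ℝ) * (((n * n : ℕ) : ℝ) * Real.log 2) ≤ 8 * X * T := by linarith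
    have e9 : (m : ℝ) / 14 ≤ n := by
      have h1 : m ≤ 14 * n := by omega
      have h2 : (m : ℝ) ≤ 14 * n := by exact_mod_cast h1
      linarith
    have e10 : (m : ℝ) ^ 2 / 196 ≤ ((n * n : ℕ) : ℝ) := by
      push_cast
      nlinarith
    have e11 : (m : ℝ) ^ 2 / 196 * 0.69 ≤ ((n * n : ℕ) : ℝ) * Real.log 2 :=
      mul_le_mul e10 hlog2.le (by norm_num) (by positivity)
    have e12 : k / 2 ≤ K := by rw [hk]; linarith
    have e13 : k / 2 * ((m : ℝ) ^ 2 / 196 * 0.69) ≤
        (K : ℝ) * (((n * n : ℕ) : ℝ) * Real.log 2) :=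
      mul_le_mul e12 e11 (by positivity) (by linarith)
    have e14 : 0 ≤ X * T := by positivity
    have e15 : k * (m : ℝ) ^ 2 * (0.69 / 392) ≤ 8 * (X * T) := by nlinarith
    nlinarith

/-- One language for all alphabet sizes. -/
theorem one_lang_real (m : ℕ) (hm : 24 ≤ m) :
    ∃ (S : Type) (_ : Fintype S) (L : Language S), L.IsRegular ∧ tc L = m ∧
      ∀ k : ℕ, 2 ≤ k → ∃ h : Fin k → List S, (∀ i, h i ≠ []) ∧
        (k : ℝ) * (m : ℝ) ^ 2 ≤
          4600 * ((tc (inverseImage h L) : ℝ) + 1) * Real.log ((k : ℝ) * m) := by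
  obtain ⟨S, hS, L, hL, hLm, H⟩ := one_lang ((m - 6) / 7) m (by omega) (by omega)
  refine ⟨S, hS, L, hL, hLm, fun k hk => ?_⟩
  obtain ⟨K, rfl⟩ : ∃ K, k = K + 1 := ⟨k - 1, by omega⟩
  obtain ⟨h, h1, h2⟩ := H K
  refine ⟨h, h1, ?_⟩
  have h3 := low' K m _ (by omega) hm h2
  push_cast
  exact h3

/-- The lower bound, uniform in the size `k` of the alphabet. -/
theorem low (k m : ℕ) (hk : 2 ≤ k) (hm : 24 ≤ m) :
    (k : ℝ) * (m : ℝ) ^ 2 ≤ 4600 * ((g k m : ℝ) + 1) * Real.log ((k : ℝ) * m) := by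
  obtain ⟨S, hS, L, hL, hLm, H⟩ := one_lang_real m hm
  obtain ⟨h, -, h2⟩ := H k hk
  have h3 : tc (inverseImage h L) ≤ g k m :=
    le_csSup (g_bdd k m) ⟨Fin k, S, inferInstance, hS, h, L, Fintype.card_fin k, hL, hLm, rfl⟩
  have h3' : (tc (inverseImage h L) : ℝ) ≤ g k m := by exact_mod_cast h3
  have hX : 0 ≤ Real.log ((k : ℝ) * m) := by
    apply Real.log_nonneg
    have h4 : (1 : ℝ) ≤ k := by exact_mod_cast (by omega : 1 ≤ k)
    have h5 : (1 : ℝ) ≤ m := by exact_mod_cast (by omega : 1 ≤ m)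
    nlinarith
  refine h2.trans (mul_le_mul_of_nonneg_right ?_ hX)
  linarith

theorem log_le_two_sqrt {x : ℝ} (hx : 0 < x) : Real.log x ≤ 2 * Real.sqrt x := by
  have h1 : Real.log x = 2 * Real.log (Real.sqrt x) := by
    rw [Real.log_sqrt hx.le]; ring
  rw [h1]
  have h2 : Real.log (Real.sqrt x) ≤ Real.sqrt x - 1 :=
    Real.log_le_sub_one_of_pos (Real.sqrt_pos.2 hx)
  linarith

/-- For `m ≥ 1000` the additive constant can be dropped. -/
theorem low2 (k m : ℕ) (hk : 2 ≤ k) (hm : 1000 ≤ m) :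
    (k : ℝ) * (m : ℝ) ^ 2 ≤ 9200 * (g k m : ℝ) * Real.log ((k : ℝ) * m) := by
  have h := low k m hk (by omega)
  have hmr : (1000 : ℝ) ≤ m := by exact_mod_cast hm
  have hkr : (2 : ℝ) ≤ k := by exact_mod_cast hk
  set X := Real.log ((k : ℝ) * m) with hX
  have hkm : (2000 : ℝ) ≤ (k : ℝ) * m := by nlinarith
  have hX0 : 0 < X := Real.log_pos (by linarith)
  have hg : 1 ≤ g k m := by
    by_contra hcon
    have h0 : g k m = 0 := by omega
    rw [h0] at h
    push_cast at h
    have h1 : X ≤ 2 * Real.sqrt ((k : ℝ) * m) := log_le_two_sqrt (by linarith)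
    have h2 : Real.sqrt ((k : ℝ) * m) * Real.sqrt ((k : ℝ) * m) = (k : ℝ) * m :=
      Real.mul_self_sqrt (by linarith)
    set s := Real.sqrt ((k : ℝ) * m) with hs
    have hs0 : 0 ≤ s := Real.sqrt_nonneg _
    have hs1 : 44 ≤ s := by
      by_contra hc
      push Not at hc
      nlinarith
    have h3 : (k : ℝ) * (m : ℝ) ^ 2 = s * s * m := by rw [h2]; ring
    rw [h3] at h
    have h4 : s * s * m ≤ 9200 * s := by nlinarith
    have h5 : 44 * s * 1000 ≤ s * s * m := by
      have : 44 * s ≤ s * s := by nlinarith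
      exact mul_le_mul this hmr (by norm_num) (by positivity)
    nlinarith
  have hgr : (1 : ℝ) ≤ g k m := by exact_mod_cast hg
  have h6 : ((g k m : ℝ) + 1) * X ≤ 2 * (g k m : ℝ) * X :=
    mul_le_mul_of_nonneg_right (by linarith) hX0.le
  nlinarith

end Pool.Agent.H36.TC
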