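import Mathlib
import Pool.Agent.H36.TC.Low

set_option autoImplicit false

namespace Pool.Agent.H36.TC

open Pool.Agent.Helper948.Nfa

/-- The part of an automaton that uses only the letters in the range of `ι`. -/
theorem restrict {Γ Γ₀ Q : Type} [Fintype Q] (A : TNFA Γ Q)
    (ι : Γ₀ → Γ) (hι : Function.Injective ι) (s : Finset (Q × Γ × Q))
    (hs : ∀ r ∈ A.trans, (∃ a, ι a = r.2.1) → r ∈ s) :
    tc ({w | w.map ι ∈ A.lang} : Language Γ₀) ≤ s.card := by
  classical
  let f : Q × Γ₀ × Q → Q × Γ × Q := fun r => (r.1, ι r.2.1, r.2.2)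
  have hf : Function.Injective f := by
    rintro ⟨p, a, q⟩ ⟨p', a', q'⟩ h
    simp only [f, Prod.mk.injEq] at h
    rw [h.1, hι h.2.1, h.2.2]
  let B : TNFA Γ₀ Q := ⟨A.start, A.accept, A.trans.preimage f hf.injOn⟩
  have hB : ∀ (w : List Γ₀) (p q : Q), B.Path p w q ↔ A.Path p (w.map ι) q := by
    intro w
    induction w with
    | nil => intro p q; simp only [List.map_nil, path_nil_iff]
    | cons a w ih =>
      intro p q
      rw [path_cons_iff, List.map_cons, path_cons_iff]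
      refine exists_congr fun r => ?_
      rw [ih]
      simp only [B, f, Finset.mem_preimage]
  have hlang : B.lang = ({w | w.map ι ∈ A.lang} : Language Γ₀) := by
    ext w
    show w ∈ B.lang ↔ w.map ι ∈ A.lang
    rw [mem_lang, mem_lang]
    exact exists_congr fun g => and_congr Iff.rfl (hB w A.start g)
  rw [← hlang]
  refine (tc_le B).trans ?_
  refine Finset.card_le_card_of_injOn f ?_ hf.injOn
  intro r hr
  have hr1 : r ∈ A.trans.preimage f hf.injOn := Finset.mem_coe.1 hr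
  have hr' : f r ∈ A.trans := Finset.mem_preimage.1 hr1
  exact Finset.mem_coe.2 (hs _ hr' ⟨r.2.1, rfl⟩)

/-- Copies of `j` letters: every copy needs its own transitions. -/
theorem copies {S : Type} (L : Language S) (hL : Rec L) (j : ℕ) (hj : 0 < j)
    (h₀ : Fin j → List S) (k : ℕ) :
    (k / j) * tc (inverseImage h₀ L) ≤
      tc (inverseImage (fun i : Fin k => h₀ ⟨i.val % j, Nat.mod_lt _ hj⟩) L) := by
  classical
  obtain ⟨h, hh⟩ : ∃ h : Fin k → List S,
    h = fun i : Fin k => h₀ ⟨i.val % j, Nat.mod_lt _ hj⟩ := ⟨_, rfl⟩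
  rw [← hh]
  obtain ⟨Q, hQ, A, hA, hcard⟩ := exists_tc (rec_inverseImage hL h)
  rw [← hcard]
  let ι : Fin (k / j) → Fin j → Fin k := fun a i => ⟨j * a.val + i.val, by
    have h1 := a.2
    have h2 := i.2
    have h3 : j * (a.val + 1) ≤ j * (k / j) := Nat.mul_le_mul_left j h1
    have h4 : j * (k / j) ≤ k := Nat.mul_div_le k j
    rw [Nat.mul_add, Nat.mul_one] at h3
    omega⟩
  have hι : ∀ a, Function.Injective (ι a) := by
    intro a i i' hii
    have := congrArg Fin.val hii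
    simp only [ι] at this
    exact Fin.ext (by omega)
  have hιh : ∀ a i, h (ι a i) = h₀ i := by
    intro a i
    rw [hh]
    simp only [ι]
    congr 1
    apply Fin.ext
    simp only
    rw [Nat.mul_add_mod]
    exact Nat.mod_eq_of_lt i.2
  have h1 : ∀ a, tc (inverseImage h₀ L) ≤
      (A.trans.filter (fun r => ∃ i, ι a i = r.2.1)).card := by
    intro a
    have e : inverseImage h₀ L = ({w | w.map (ι a) ∈ A.lang} : Language (Fin j)) := by
      rw [hA]
      ext w
      show w.flatMap h₀ ∈ L ↔ (w.map (ι a)).flatMap h ∈ L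
      rw [List.flatMap_map]
      have : (fun i => h (ι a i)) = h₀ := funext (hιh a)
      rw [this]
    rw [e]
    exact restrict A (ι a) (hι a) _ (fun r hr hr' => Finset.mem_filter.2 ⟨hr, hr'⟩)
  have h2 : ∑ a : Fin (k / j), (A.trans.filter (fun r => ∃ i, ι a i = r.2.1)).card ≤
      A.trans.card := by
    rw [← Finset.card_biUnion]
    · apply Finset.card_le_card
      intro r hr
      rw [Finset.mem_biUnion] at hr
      obtain ⟨a, -, ha⟩ := hr
      exact (Finset.mem_filter.1 ha).1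
    · intro a _ a' _ haa
      rw [Function.onFun, Finset.disjoint_left]
      intro r hr hr'
      obtain ⟨i, hi⟩ := (Finset.mem_filter.1 hr).2
      obtain ⟨i', hi'⟩ := (Finset.mem_filter.1 hr').2
      apply haa
      have h3 : ι a i = ι a' i' := hi.trans hi'.symm
      have h4 := congrArg Fin.val h3
      simp only [ι] at h4
      have h5 := congrArg (fun x => x / j) h4
      simp only [Nat.mul_add_div hj, Nat.div_eq_of_lt i.2, Nat.div_eq_of_lt i'.2,
        Nat.add_zero] at h5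
      exact Fin.ext h5
  refine le_trans ?_ h2
  calc (k / j) * tc (inverseImage h₀ L) = ∑ _a : Fin (k / j), tc (inverseImage h₀ L) := by
        rw [Finset.sum_const, Finset.card_univ, Fintype.card_fin, smul_eq_mul]
    _ ≤ _ := Finset.sum_le_sum (fun a _ => h1 a)

/-- The worst case from `k` letters is at least `k / j` times the worst case from `j` letters. -/
theorem g_copies (j k m : ℕ) (hj : 0 < j) : (k / j) * g j m ≤ g k m := by
  classical
  have h0 : g j m ∈ gValues j m := Nat.sSup_mem (gValues_nonempty j m) (g_bdd j m)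
  obtain ⟨G, S, hG, hS, h, L, hc, hL, hm, ht⟩ := h0
  have e : G ≃ Fin j := Fintype.equivFinOfCardEq hc
  have hr : Rec L := rec_of_isRegular hL
  have h1 : tc (inverseImage h L) ≤ tc (inverseImage (fun i => h (e.symm i)) L) := by
    obtain ⟨Q, hQ, A, hA, hcard⟩ := exists_tc (rec_inverseImage hr (fun i => h (e.symm i)))
    rw [← hcard]
    have e2 : inverseImage h L = ({w | w.map e ∈ A.lang} : Language G) := by
      rw [hA]
      ext w
      show w.flatMap h ∈ L ↔ (w.map e).flatMap (fun i => h (e.symm i)) ∈ L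
      rw [List.flatMap_map]
      simp only [Equiv.symm_apply_apply]
    rw [e2]
    exact restrict A e e.injective _ (fun r hr _ => hr)
  have h2 := copies L hr j hj (fun i => h (e.symm i)) k
  have h3 : tc (inverseImage (fun i : Fin k => h (e.symm ⟨i.val % j, Nat.mod_lt _ hj⟩)) L) ≤
      g k m := le_csSup (g_bdd k m)
    ⟨Fin k, S, inferInstance, hS, _, L, Fintype.card_fin k, hL, hm, rfl⟩
  rw [ht]
  exact (Nat.mul_le_mul_left _ h1).trans (h2.trans h3)

/-- For every `m` the limit of `g k m / k` as the alphabet grows exists and is the supremum. -/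
theorem g_limit (m : ℕ) : ∃ c : ℝ,
    Filter.Tendsto (fun k : ℕ => (g k m : ℝ) / k) Filter.atTop (nhds c) ∧
    (∀ k : ℕ, 0 < k → (g k m : ℝ) / k ≤ c) ∧ c ≤ ((m : ℝ) + 1) ^ 2 := by
  have hb : ∀ k : ℕ, (g k m : ℝ) / k ≤ ((m : ℝ) + 1) ^ 2 := by
    intro k
    rcases Nat.eq_zero_or_pos k with h | h
    · rw [h]; simp; positivity
    · have hk : (0 : ℝ) < k := by exact_mod_cast h
      rw [div_le_iff₀ hk]
      have := g_standard k m
      have h2 : (g k m : ℝ) ≤ k * ((m : ℝ) + 1) ^ 2 := by exact_mod_cast this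
      linarith
  have hbdd : BddAbove (Set.range (fun k : ℕ => (g k m : ℝ) / k)) :=
    ⟨((m : ℝ) + 1) ^ 2, by rintro x ⟨k, rfl⟩; exact hb k⟩
  refine ⟨⨆ k : ℕ, (g k m : ℝ) / k, ?_, fun k _ => le_ciSup hbdd k, ciSup_le hb⟩
  rw [Metric.tendsto_atTop]
  intro ε hε
  obtain ⟨j, hj⟩ := exists_lt_of_lt_ciSup
    (show (⨆ k : ℕ, (g k m : ℝ) / k) - ε / 2 < ⨆ k : ℕ, (g k m : ℝ) / k by linarith)
  set c := ⨆ k : ℕ, (g k m : ℝ) / k with hc
  rcases Nat.eq_zero_or_pos j with h | hj0
  · rw [h] at hj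
    simp only [Nat.cast_zero, div_zero] at hj
    refine ⟨0, fun k _ => ?_⟩
    have h1 : (g k m : ℝ) / k ≤ c := le_ciSup hbdd k
    have h2 : (0 : ℝ) ≤ (g k m : ℝ) / k := by positivity
    rw [Real.dist_eq, abs_lt]
    constructor <;> linarith
  · have hjr : (0 : ℝ) < j := by exact_mod_cast hj0
    obtain ⟨N, hN⟩ := exists_nat_gt ((g j m : ℝ) / (ε / 2))
    refine ⟨max N 1, fun k hk => ?_⟩
    have hk1 : 1 ≤ k := (le_max_right _ _).trans hk
    have hkN : N ≤ k := (le_max_left _ _).trans hk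
    have hkr : (0 : ℝ) < k := by exact_mod_cast hk1
    have hkNr : (N : ℝ) ≤ k := by exact_mod_cast hkN
    have h1 : (g k m : ℝ) / k ≤ c := le_ciSup hbdd k
    have h2 : ((k / j : ℕ) : ℝ) * (g j m : ℝ) ≤ g k m := by exact_mod_cast g_copies j k m hj0
    have h3 : (k : ℝ) / j - 1 ≤ ((k / j : ℕ) : ℝ) := by
      rw [sub_le_iff_le_add, div_le_iff₀ hjr]
      have h4 : k ≤ (k / j + 1) * j := by
        have h5 := Nat.div_add_mod k j
        have h6 := Nat.mod_lt k hj0
        nlinarith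
      exact_mod_cast h4
    have h4 : (0 : ℝ) ≤ (g j m : ℝ) := Nat.cast_nonneg _
    have h5 : ((k : ℝ) / j - 1) * (g j m : ℝ) ≤ g k m :=
      (mul_le_mul_of_nonneg_right h3 h4).trans h2
    have h6 : (g j m : ℝ) / j - (g j m : ℝ) / k ≤ (g k m : ℝ) / k := by
      rw [le_div_iff₀ hkr]
      have h7 : ((g j m : ℝ) / j - (g j m : ℝ) / k) * k = ((k : ℝ) / j - 1) * (g j m : ℝ) := by
        field_simp
      rw [h7]
      exact h5
    have h8 : (g j m : ℝ) / k < ε / 2 := by
      rw [div_lt_iff₀ hkr]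
      rw [div_lt_iff₀ (by linarith)] at hN
      nlinarith
    rw [Real.dist_eq, abs_lt]
    constructor <;> linarith

/-- One language for all alphabet sizes: lower bound linear in the number of letters. -/
theorem one_lang_all (m : ℕ) (hm : 1000 ≤ m) :
    ∃ (S : Type) (_ : Fintype S) (L : Language S), L.IsRegular ∧ tc L = m ∧
      ∀ k : ℕ, 2 ≤ k → ∃ h : Fin k → List S, (∀ i, h i ≠ []) ∧
        (k : ℝ) * ((m : ℝ) ^ 2 / Real.log m) ≤ 16000 * (tc (inverseImage h L) : ℝ) := by
  obtain ⟨S, hS, L, hL, hLm, H⟩ := one_lang_real m (by omega)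
  refine ⟨S, hS, L, hL, hLm, fun k hk => ?_⟩
  obtain ⟨h₀, h1, h2⟩ := H 2 le_rfl
  refine ⟨fun i : Fin k => h₀ ⟨i.val % 2, Nat.mod_lt _ (by norm_num)⟩, fun i => h1 _, ?_⟩
  have h3 := copies L (rec_of_isRegular hL) 2 (by norm_num) h₀ k
  obtain ⟨t, ht⟩ : ∃ t : ℕ, t = tc (inverseImage h₀ L) := ⟨_, rfl⟩
  obtain ⟨T, hT⟩ : ∃ T : ℕ, T = tc (inverseImage
    (fun i : Fin k => h₀ ⟨i.val % 2, Nat.mod_lt _ (by norm_num)⟩) L) := ⟨_, rfl⟩
  rw [← ht] at h2 h3
  rw [← hT] at h3 ⊢
  have hmr : (1000 : ℝ) ≤ m := by exact_mod_cast hm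
  have hkr : (2 : ℝ) ≤ k := by exact_mod_cast hk
  have hl0 : (6.2 : ℝ) ≤ Real.log m := by
    have h5 : Real.log 512 ≤ Real.log m := Real.log_le_log (by norm_num) (by linarith)
    have h6 : Real.log 512 = 9 * Real.log 2 := by
      rw [show (512 : ℝ) = 2 ^ 9 by norm_num, Real.log_pow]
      norm_num
    have := Real.log_two_gt_d9
    rw [h6] at h5
    linarith
  have hlm : Real.log (2 * m) ≤ 1.112 * Real.log m := by
    rw [Real.log_mul (by norm_num) (by linarith)]
    have := Real.log_two_lt_d9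
    linarith
  push_cast at h2
  have hL2 : 0 < Real.log (m : ℝ) := by linarith
  -- lower bound for t + 1
  have ha : (m : ℝ) ^ 2 / Real.log m ≤ 2558 * ((t : ℝ) + 1) := by
    rw [div_le_iff₀ hL2]
    have h4 : 4600 * ((t : ℝ) + 1) * Real.log (2 * m) ≤
        4600 * ((t : ℝ) + 1) * (1.112 * Real.log m) :=
      mul_le_mul_of_nonneg_left hlm (by positivity)
    nlinarith
  have hb : (5116 : ℝ) < (m : ℝ) ^ 2 / Real.log m := by
    rw [lt_div_iff₀ hL2]
    have h5 : Real.log (m : ℝ) ≤ 2 * Real.sqrt m := log_le_two_sqrt (by linarith)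
    have h6 : Real.sqrt (m : ℝ) * Real.sqrt m = m := Real.mul_self_sqrt (by linarith)
    set s := Real.sqrt (m : ℝ) with hs
    have hs0 : 0 ≤ s := Real.sqrt_nonneg _
    have hs1 : 31 ≤ s := by
      by_contra hc
      push Not at hc
      nlinarith
    have h7 : (m : ℝ) ^ 2 = s * s * m := by rw [h6]; ring
    rw [h7]
    have h8 : 31 * s * 1000 ≤ s * s * m := by
      have : 31 * s ≤ s * s := by nlinarith
      exact mul_le_mul this hmr (by norm_num) (by positivity)
    nlinarith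
  have ht1 : (1 : ℝ) ≤ t := by
    have h9 : (1 : ℝ) < t := by linarith
    exact h9.le
  have hc : (m : ℝ) ^ 2 / Real.log m ≤ 5116 * (t : ℝ) := by linarith
  have hd : (k : ℝ) / 3 ≤ ((k / 2 : ℕ) : ℝ) := by
    have h9 : k ≤ 3 * (k / 2) := by omega
    have h10 : (k : ℝ) ≤ 3 * ((k / 2 : ℕ) : ℝ) := by exact_mod_cast h9
    linarith
  have he : ((k / 2 : ℕ) : ℝ) * (t : ℝ) ≤ T := by exact_mod_cast h3
  have h0 : (0 : ℝ) ≤ (m : ℝ) ^ 2 / Real.log m := by positivity
  have hf : (k : ℝ) * ((m : ℝ) ^ 2 / Real.log m) ≤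
      (3 * ((k / 2 : ℕ) : ℝ)) * (5116 * (t : ℝ)) :=
    mul_le_mul (by linarith) hc h0 (by positivity)
  have hT0 : (0 : ℝ) ≤ T := Nat.cast_nonneg _
  nlinarith

end Pool.Agent.H36.TC
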